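import Pool.Agent.Lib.MP_5c318e_ag.RD.RDefs

/-! Upper count on a Riemann domain by the maximum principle: the setting. -/

set_option autoImplicit false

namespace Pool.Agent.Lib.MP_5c318e_ag.Hyp

open Set Metric
open Pool.Agent.Lib.MP_9ff3e7_ag

noncomputable section

variable {ι : Type} [Fintype ι] {S : Type} [TopologicalSpace S] [MeasurableSpace S]

/-- `|y|² + 1` -/
def nsq (y : ι → ℂ) : ℝ := ∑ i, ‖y i‖ ^ 2 + 1

/-- the ball of radius `exp (-(C ψ x + C))` around `π x` -/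
def bal (D : RD ι S) (C : ℝ) (ψ : S → ℝ) (x : S) : Set (ι → ℂ) :=
  ball (D.π x) (Real.exp (-(C * ψ x + C)))

/-- at most `d` sheets; `ψ` is an exhaustion with Levi form at most `A` times the Fubini-Study form;
the balls `bal` lift -/
structure Tame (D : RD ι S) (d : ℕ) (A C : ℝ) (ψ : S → ℝ) (σ : S → (ι → ℂ) → S) : Prop where
  sheets : ∀ y, (D.π ⁻¹' {y}).encard ≤ d
  A0 : 0 ≤ A
  C0 : 0 ≤ C
  sm : D.Sm ψ
  cpt : ∀ t : ℝ, IsCompact {x | ψ x ≤ t}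
  lev : ∀ x ξ, D.levi ψ x ξ ≤ A * F.levi (fun y => Real.log (nsq y)) (D.π x) ξ
  grow : ∀ x, Real.log (nsq (D.π x)) ≤ C * ψ x + C
  cont : ∀ x, ContinuousOn (σ x) (bal D C ψ x)
  base : ∀ x, σ x (D.π x) = x
  lift : ∀ x, ∀ z ∈ bal D C ψ x, D.π (σ x z) = z

/-- the weight: `c ≥ 0`, of class `C²` where positive, and there the Levi form of `log c` is not
negative definite on any subspace of dimension `> ρ` -/
structure Wt (D : RD ι S) (ρ : ℕ) (c : S → ℝ) : Prop where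
  cont : Continuous c
  nonneg : ∀ x, 0 ≤ c x
  sm : ∀ x, 0 < c x → ContDiffAt ℝ 2 (fun z => c (D.sec x z)) (D.π x)
  ker : ∀ x, 0 < c x → ∀ L : Submodule ℂ (ι → ℂ), ρ < Module.finrank ℂ L →
    ∃ ξ ∈ L, ξ ≠ 0 ∧ 0 ≤ D.levi (fun y => Real.log (c y)) x ξ

/-- the weighted bound on lifted balls -/
def BdA (D : RD ι S) (C : ℝ) (ψ : S → ℝ) (σ : S → (ι → ℂ) → S) (c : S → ℝ) (T : ℕ) (k : ℝ)
    (u : S → ℂ) : Prop :=
  ∃ M : ℝ, ∀ x, ∃ W : (ι → ℂ) → ℂ, DifferentiableOn ℂ W (bal D C ψ x) ∧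
    c x ^ T ≤ ‖W (D.π x)‖ ^ 2 ∧ ∀ z ∈ bal D C ψ x, (c (σ x z) = 0 → W z = 0) ∧
      ‖u (σ x z) * W z‖ ^ 2 ≤ M * Real.exp (k * ψ x)

/-- the plain bound on lifted balls -/
def BdB (D : RD ι S) (C : ℝ) (ψ : S → ℝ) (σ : S → (ι → ℂ) → S) (κ : ℝ) (u : S → ℂ) : Prop :=
  ∃ M : ℝ, ∀ x, ∀ z ∈ bal D C ψ x, ‖u (σ x z)‖ ^ 2 ≤ M * Real.exp (κ * ψ x)

end

end Pool.Agent.Lib.MP_5c318e_ag.Hyp
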