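import Pool.Agent.Lib.MP_9ff3e7_ag.F.LeviC

/-! Upper count by the maximum principle, part A: elementary lemmas. -/

set_option autoImplicit false

namespace Pool.Agent.Lib.MP_5c318e_ag.Hyp

open Set Metric Filter Topology Complex Module
open Pool.Agent.Lib.MP_9ff3e7_ag Pool.Agent.Lib.MP_9ff3e7_ag.F.Lv

theorem d2_nonpos_line {E : Type*} [NormedAddCommGroup E] [NormedSpace ℝ E] {φ : E → ℝ} {x v : E}
    (hφ : ContDiffAt ℝ 2 φ x) (hm : ∀ᶠ t : ℝ in 𝓝 0, φ (x + t • v) ≤ φ x) :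
    fderiv ℝ (fderiv ℝ φ) x v v ≤ 0 := by
  by_contra hp
  rw [not_le] at hp
  let l : ℝ → E := fun t => x + t • v
  have l0 : l 0 = x := by simp [l]
  have ld : ∀ t, HasDerivAt l v t := fun t => by
    simpa [l] using ((hasDerivAt_id t).smul_const v).const_add x
  have lc : Tendsto l (𝓝 0) (𝓝 x) := by
    have := (ld 0).continuousAt.tendsto
    rwa [l0] at this
  have e : deriv (fun t => φ (l t)) =ᶠ[𝓝 0] fun t => fderiv ℝ φ (l t) v := by
    filter_upwards [lc.eventually (ev_diffAt hφ)] with t ht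
    exact (ht.hasFDerivAt.comp_hasDerivAt t (ld t)).deriv
  have d2 : HasDerivAt (fun t => fderiv ℝ φ (l t) v) (fderiv ℝ (fderiv ℝ φ) x v v) 0 := by
    have a : HasFDerivAt (fderiv ℝ φ) (fderiv ℝ (fderiv ℝ φ) x) (l 0) := by
      rw [l0]
      exact (diffAt_fderiv hφ).hasFDerivAt
    simpa using (a.comp_hasDerivAt 0 (ld 0)).clm_apply (hasDerivAt_const 0 v)
  have mx : IsLocalMax (fun t => φ (l t)) 0 := by
    simpa only [IsLocalMax, IsMaxFilter, l0] using hm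
  have c0 : ContinuousAt (fun t => φ (l t)) 0 :=
    ContinuousAt.comp (by rw [l0]; exact hφ.continuousAt) (ld 0).continuousAt
  have p2 : deriv (deriv fun t => φ (l t)) 0 > 0 := by
    rw [e.deriv_eq, d2.deriv]
    exact hp
  have mn := isLocalMin_of_deriv_deriv_pos p2 mx.deriv_eq_zero c0
  have cst : (fun t => φ (l t)) =ᶠ[𝓝 0] fun _ => φ (l 0) := by
    filter_upwards [mx, mn] with t h1 h2 using le_antisymm h1 h2
  rw [cst.deriv.deriv_eq] at p2
  simp at p2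

variable {ι : Type} [Fintype ι]

/-- second derivative test along a complex line -/
theorem levi_nonpos_line {φ : (ι → ℂ) → ℝ} {x ξ : ι → ℂ} (hφ : ContDiffAt ℝ 2 φ x)
    (hm : ∀ᶠ t : ℂ in 𝓝 0, φ (x + t • ξ) ≤ φ x) : F.levi φ x ξ ≤ 0 := by
  have t1 : Tendsto (fun t : ℝ => (t : ℂ)) (𝓝 0) (𝓝 0) := continuous_ofReal.tendsto' 0 0 (by simp)
  have t2 : Tendsto (fun t : ℝ => (t : ℂ) * I) (𝓝 0) (𝓝 0) :=
    (continuous_ofReal.mul continuous_const).tendsto' 0 0 (by simp)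
  have a := d2_nonpos_line (v := ξ) hφ ((t1.eventually hm).mono fun t h => by
    rwa [coe_smul] at h)
  have b := d2_nonpos_line (v := I • ξ) hφ ((t2.eventually hm).mono fun t h => by
    rwa [mul_smul, coe_smul] at h)
  rw [F.levi]
  linarith

theorem levi_log_normSq {f : (ι → ℂ) → ℂ} {x : ι → ℂ} (hf : AnalyticAt ℂ f x) (h0 : f x ≠ 0)
    (ξ : ι → ℂ) : F.levi (fun y => Real.log (‖f y‖ ^ 2)) x ξ = 0 := by
  have n : ‖f x‖ ≠ 0 := norm_ne_zero_iff.2 h0
  rw [F.levi_log (F.contDiffAt_normSq hf) (pow_ne_zero 2 n), F.levi_normSq hf,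
    F.dbar_normSq hf.differentiableAt, norm_mul, norm_conj]
  field_simp
  ring

/-- the Schwarz lemma with one zero, which need not lie in the disc -/
theorem schwarz_one {f : ℂ → ℂ} {r M : ℝ} (hr : 0 < r) (hd : DifferentiableOn ℂ f (ball 0 r))
    (hb : ∀ t ∈ ball (0 : ℂ) r, ‖f t‖ ^ 2 ≤ M) {t₀ : ℂ} (h0 : t₀ ∈ ball (0 : ℂ) r → f t₀ = 0) :
    ‖f 0‖ ^ 2 * r ^ 2 ≤ 4 * M * ‖t₀‖ ^ 2 := by
  have b0 := hb 0 (mem_ball_self hr)
  have M0 : 0 ≤ M := (sq_nonneg _).trans b0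
  by_cases h : ‖t₀‖ < r / 2
  · have sub : ball t₀ (r / 2) ⊆ ball 0 r := ball_subset_ball' (by rw [dist_zero_right]; linarith)
    have z := h0 (mem_ball_zero_iff.2 (by linarith))
    have s := dist_le_div_mul_dist_of_mapsTo_ball (hd.mono sub) (R₂ := Real.sqrt M)
      (fun t ht => by
        rw [z, mem_closedBall_zero_iff]
        exact Real.le_sqrt_of_sq_le (hb t (sub ht)))
      (z := 0) (by rwa [mem_ball, dist_zero_left])
    rw [z, dist_zero_right, dist_zero_left, div_mul_eq_mul_div, le_div_iff₀ (by linarith)] at s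
    have := pow_le_pow_left₀ (by positivity) s 2
    rw [mul_pow, mul_pow, Real.sq_sqrt M0] at this
    linarith
  · rw [not_lt] at h
    have : r ^ 2 ≤ 4 * ‖t₀‖ ^ 2 := by nlinarith
    calc _ ≤ M * (4 * ‖t₀‖ ^ 2) := mul_le_mul b0 this (sq_nonneg _) M0
      _ = _ := by ring

section lin

variable {E : Type} [NormedAddCommGroup E] [NormedSpace ℂ E] [FiniteDimensional ℂ E]

theorem finrank_le_inf_ker (Λ : Submodule ℂ E) (l : E →ₗ[ℂ] ℂ) :
    finrank ℂ Λ ≤ finrank ℂ (Λ ⊓ LinearMap.ker l : Submodule ℂ E) + 1 := by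
  have a := LinearMap.finrank_range_add_finrank_ker (l ∘ₗ Λ.subtype)
  have b : finrank ℂ (LinearMap.range (l ∘ₗ Λ.subtype)) ≤ 1 := by
    simpa using Submodule.finrank_le (LinearMap.range (l ∘ₗ Λ.subtype))
  rw [LinearMap.ker_comp, ← Submodule.finrank_map_subtype_eq, Submodule.map_comap_subtype] at a
  omega

/-- linear forms in general position on a subspace -/
theorem forms (Λ : Submodule ℂ E) {j : ℕ} (hj : finrank ℂ Λ = j + 1) (J : ℕ) :
    ∃ l : Fin J → E →L[ℂ] ℂ,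
      (∀ i, finrank ℂ (Λ ⊓ LinearMap.ker (l i : E →ₗ[ℂ] ℂ) : Submodule ℂ E) = j) ∧
      ∃ κ : ℝ, 0 < κ ∧ κ ≤ 1 ∧
        ∀ v ∈ Λ, (Finset.univ.filter fun i => ‖l i v‖ < κ * ‖v‖).card ≤ j := by
  classical
  let b := finBasisOfFinrankEq ℂ Λ hj
  obtain ⟨g, hg⟩ := LinearMap.exists_extend b.equivFun.toLinearMap
  have hg' : ∀ v : Λ, g v = b.equivFun v := fun v => LinearMap.congr_fun hg v
  let m : Fin J → E →ₗ[ℂ] ℂ := fun i =>
    ∑ s : Fin (j + 1), (((i : ℕ) : ℂ) ^ (s : ℕ)) • (LinearMap.proj s ∘ₗ g)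
  have hm : ∀ i v, m i v = ∑ s : Fin (j + 1), ((i : ℕ) : ℂ) ^ (s : ℕ) * g v s := fun i v => by
    simp [m]
  have key : ∀ τ : Fin (j + 1) ↪ Fin J, ∃ K : ℝ, ∀ v : Λ, ‖v‖ ≤ K * ‖fun r => m (τ r) v‖ := by
    intro τ
    let Φ : Λ →ₗ[ℂ] (Fin (j + 1) → ℂ) := LinearMap.pi fun r => m (τ r) ∘ₗ Λ.subtype
    obtain ⟨K, -, hK⟩ := Φ.exists_antilipschitzWith (LinearMap.ker_eq_bot'.2 fun v hv => by
      have := Matrix.eq_zero_of_forall_index_sum_pow_mul_eq_zero
        (f := fun r => (((τ r : Fin J) : ℕ) : ℂ)) (v := g v)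
        (fun r s h => τ.injective (Fin.ext (Nat.cast_injective h)))
        (fun r => by rw [← hm]; exact congrFun hv r)
      rw [hg'] at this
      exact b.equivFun.map_eq_zero_iff.1 this)
    exact ⟨K, fun v => ZeroHomClass.bound_of_antilipschitz Φ hK v⟩
  choose K hK using key
  obtain ⟨K₀, hK₀⟩ := Finite.exists_le K
  have p : 0 < max K₀ 1 := lt_max_of_lt_right one_pos
  refine ⟨fun i => LinearMap.toContinuousLinearMap (m i), fun i => ?_, (max K₀ 1)⁻¹, inv_pos.2 p,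
    inv_le_one_of_one_le₀ (le_max_right _ _), fun v hv => ?_⟩
  · have a := finrank_le_inf_ker Λ (m i)
    have c : (Λ ⊓ LinearMap.ker (m i) : Submodule ℂ E) < Λ := by
      refine lt_of_le_of_ne inf_le_left fun h => ?_
      have : (b 0 : E) ∈ (Λ ⊓ LinearMap.ker (m i) : Submodule ℂ E) := h.symm ▸ (b 0).2
      have z := this.2
      rw [SetLike.mem_coe, LinearMap.mem_ker, hm, hg'] at z
      simp [Finsupp.single_apply] at z
    have := Submodule.finrank_lt_finrank_of_lt c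
    change finrank ℂ (Λ ⊓ LinearMap.ker (m i) : Submodule ℂ E) = j
    omega
  · by_contra h
    rw [not_le] at h
    set B := Finset.univ.filter fun i =>
      ‖LinearMap.toContinuousLinearMap (m i) v‖ < (max K₀ 1)⁻¹ * ‖v‖ with hB
    let τ := (B.orderEmbOfCardLe (k := j + 1) h).toEmbedding
    have t : ∀ r, ‖m (τ r) v‖ < (max K₀ 1)⁻¹ * ‖v‖ := fun r =>
      (Finset.mem_filter.1 (B.orderEmbOfCardLe_mem (k := j + 1) h r)).2
    have n := (pi_norm_lt_iff (x := fun r => m (τ r) v) ((norm_nonneg _).trans_lt (t 0))).2 t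
    have k1 : ‖v‖ ≤ K τ * ‖fun r => m (τ r) v‖ := hK τ ⟨v, hv⟩
    have k2 : K τ * ‖fun r => m (τ r) v‖ ≤ max K₀ 1 * ‖fun r => m (τ r) v‖ :=
      mul_le_mul_of_nonneg_right ((hK₀ τ).trans (le_max_left _ _)) (norm_nonneg _)
    rw [lt_inv_mul_iff₀ p] at n
    linarith

end lin

/-- few small factors -/
theorem prod_bound {J j : ℕ} {lam : Fin J → ℝ} {q K M κ : ℝ} (q0 : 0 ≤ q) (hK : 1 ≤ K) (hM : 1 ≤ M)
    (κ0 : 0 < κ) (κ1 : κ ≤ 1) (l0 : ∀ i, 0 ≤ lam i) (lM : ∀ i, lam i ≤ M)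
    (hq : ∀ i, q ≤ K * lam i) (hc : (Finset.univ.filter fun i => lam i < κ).card ≤ j) (i₀ : Fin J) :
    q ^ (j + 1) ≤ K * (K * M) ^ j / κ ^ J * lam i₀ * ∏ i, lam i := by
  classical
  set B := Finset.univ.filter fun i => lam i < κ with hB
  have K0 : 0 ≤ K := zero_le_one.trans hK
  have KM : 1 ≤ K * M := one_le_mul_of_one_le_of_one_le hK hM
  have pB : 0 ≤ ∏ i ∈ B, lam i := Finset.prod_nonneg fun i _ => l0 i
  have a1 : q ^ B.card ≤ (K * M) ^ B.card * ∏ i ∈ B, lam i := by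
    rw [← Finset.prod_const, ← Finset.prod_const, ← Finset.prod_mul_distrib]
    exact Finset.prod_le_prod (fun _ _ => q0) fun i _ => (hq i).trans
      (mul_le_mul_of_nonneg_right (le_mul_of_one_le_right K0 hM) (l0 i))
  have a2 : q ^ (j - B.card) ≤ (K * M) ^ (j - B.card) :=
    pow_le_pow_left₀ q0 ((hq i₀).trans (mul_le_mul_of_nonneg_left (lM i₀) K0)) _
  have a3 : κ ^ J ≤ ∏ i ∈ Finset.univ.filter fun i => ¬lam i < κ, lam i := by
    refine le_trans (pow_le_pow_of_le_one κ0.le κ1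
      (m := (Finset.univ.filter fun i => ¬lam i < κ).card) ?_) ?_
    · simpa using Finset.card_filter_le (Finset.univ : Finset (Fin J)) fun i => ¬lam i < κ
    · rw [← Finset.prod_const]
      exact Finset.prod_le_prod (fun _ _ => κ0.le) fun i hi =>
        not_lt.1 (Finset.mem_filter.1 hi).2
  have a4 : q ^ j ≤ (K * M) ^ j * ∏ i ∈ B, lam i := by
    calc q ^ j = q ^ (j - B.card) * q ^ B.card := by rw [← pow_add, Nat.sub_add_cancel hc]
      _ ≤ (K * M) ^ (j - B.card) * ((K * M) ^ B.card * ∏ i ∈ B, lam i) :=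
        mul_le_mul a2 a1 (pow_nonneg q0 _) (by positivity)
      _ = _ := by rw [← mul_assoc, ← pow_add, Nat.sub_add_cancel hc]
  have a5 : (∏ i ∈ B, lam i) ≤ (∏ i, lam i) / κ ^ J := by
    rw [le_div_iff₀ (by positivity),
      ← Finset.prod_filter_mul_prod_filter_not Finset.univ (fun i => lam i < κ)]
    exact mul_le_mul_of_nonneg_left a3 pB
  calc q ^ (j + 1) = q ^ j * q := pow_succ q j
    _ ≤ ((K * M) ^ j * ((∏ i, lam i) / κ ^ J)) * (K * lam i₀) :=
      mul_le_mul (a4.trans (mul_le_mul_of_nonneg_left a5 (by positivity))) (hq i₀) q0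
        (mul_nonneg (by positivity) (pB.trans a5))
    _ = _ := by ring

/-- the quotient has a maximum -/
theorem exists_max {X : Type} [TopologicalSpace X] {J : ℕ} (i₀ : Fin J) {Z : Set X}
    (hZ : IsClosed Z) {ψ f : X → ℝ} {lam : Fin J → X → ℝ} (cpt : ∀ t, IsCompact {x | ψ x ≤ t})
    (cf : Continuous f) (cl : ∀ i, Continuous (lam i)) {K M B : ℝ} (K0 : 0 < K) (M0 : 0 < M)
    (hB : ∀ x, Real.exp (-ψ x) ≤ B) (l0 : ∀ i x, 0 ≤ lam i x) (lM : ∀ i x, lam i x ≤ M)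
    (hb : ∀ x ∈ Z, ∀ i, f x ≤ K * lam i x * (∏ i, lam i x) * Real.exp (-ψ x))
    {x₀ : X} (h₀ : x₀ ∈ Z) (f0 : 0 < f x₀) :
    ∃ x₁ ∈ Z, 0 < f x₁ ∧ (∀ i, 0 < lam i x₁) ∧
      ∀ x ∈ Z, f x / ∏ i, lam i x ≤ f x₁ / ∏ i, lam i x₁ := by
  have P0 : ∀ x, 0 ≤ ∏ i, lam i x := fun x => Finset.prod_nonneg fun i _ => l0 i x
  have B0 : 0 < B := (Real.exp_pos _).trans_le (hB x₀)
  have pos : ∀ x ∈ Z, 0 < f x → 0 < ∏ i, lam i x := fun x hx h =>
    (P0 x).lt_of_ne fun e => by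
      have := hb x hx i₀
      rw [← e] at this
      simp at this
      linarith
  set g₀ := f x₀ / ∏ i, lam i x₀ with hg
  have g0 : 0 < g₀ := div_pos f0 (pos x₀ h₀ f0)
  let Kp : Set X := {x | ψ x ≤ Real.log (K * M / g₀)} ∩ (Z ∩ ⋂ i, {x | g₀ / (K * B) ≤ lam i x})
  have cK : IsCompact Kp := (cpt _).inter_right
    (hZ.inter (isClosed_iInter fun i => isClosed_le continuous_const (cl i)))
  have mem : ∀ x ∈ Z, g₀ ≤ f x / ∏ i, lam i x → x ∈ Kp := fun x hx h => by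
    have p : 0 < ∏ i, lam i x := (P0 x).lt_of_ne fun e => by
      rw [← e, div_zero] at h
      linarith
    have b : ∀ i, g₀ ≤ K * lam i x * Real.exp (-ψ x) := fun i => by
      refine h.trans ?_
      rw [div_le_iff₀ p]
      have := hb x hx i
      linarith
    refine ⟨?_, hx, mem_iInter.2 fun i => ?_⟩
    · have b1 : g₀ ≤ K * M * Real.exp (-ψ x) := (b i₀).trans (by gcongr; exact lM i₀ x)
      rw [mem_setOf_eq, Real.le_log_iff_exp_le (by positivity), le_div_iff₀ g0]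
      rw [Real.exp_neg, ← div_eq_mul_inv, le_div_iff₀ (Real.exp_pos _)] at b1
      linarith
    · rw [mem_setOf_eq, div_le_iff₀ (by positivity)]
      have := mul_le_mul_of_nonneg_left (hB x) (mul_nonneg K0.le (l0 i x))
      have := b i
      linarith
  have lp : ∀ x ∈ Kp, ∀ i, 0 < lam i x := fun x hx i =>
    lt_of_lt_of_le (by positivity) (mem_iInter.1 hx.2.2 i)
  obtain ⟨x₁, m₁, h₁⟩ := cK.exists_isMaxOn ⟨x₀, mem x₀ h₀ le_rfl⟩
    (f := fun x => f x / ∏ i, lam i x)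
    (cf.continuousOn.div (continuous_finsetProd _ fun i _ => cl i).continuousOn fun x hx =>
      (Finset.prod_pos fun i _ => lp x hx i).ne')
  have g1 : g₀ ≤ f x₁ / ∏ i, lam i x₁ := h₁ (mem x₀ h₀ le_rfl)
  refine ⟨x₁, m₁.2.1, ?_, lp x₁ m₁, fun x hx => ?_⟩
  · exact (div_pos_iff_of_pos_right (Finset.prod_pos fun i _ => lp x₁ m₁ i)).1 (g0.trans_le g1)
  · by_cases h : g₀ ≤ f x / ∏ i, lam i x
    · exact h₁ (mem x hx h)
    · exact (not_le.1 h).le.trans g1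

end Pool.Agent.Lib.MP_5c318e_ag.Hyp
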