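import Pool.Agent.Lib.MP_5c318e_ag.U.HypDefs
import Pool.Agent.Lib.MP_5c318e_ag.U.HypA
import Pool.Agent.Lib.MP_9ff3e7_ag.F.Osg

/-! Upper count by the maximum principle, part B: local sections, the Schwarz bound. -/

set_option autoImplicit false

namespace Pool.Agent.Lib.MP_5c318e_ag.Hyp

open Set Metric Filter Topology Complex Module
open Pool.Agent.Lib.MP_9ff3e7_ag

variable {ι : Type} [Fintype ι] {S : Type} [TopologicalSpace S] [MeasurableSpace S]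

section sec

variable (D : RD ι S)

theorem ch_mem (x : S) : x ∈ (D.ch x).source := (D.loc x).choose_spec.1

theorem ch_eq (x y : S) : D.ch x y = D.π y := (congrFun (D.loc x).choose_spec.2 y).symm

theorem ch_tgt (x : S) : D.π x ∈ (D.ch x).target := by
  rw [← ch_eq D x x]
  exact (D.ch x).map_source (ch_mem D x)

theorem sec_pi {x y : S} (h : y ∈ (D.ch x).source) : D.sec x (D.π y) = y := by
  rw [← ch_eq D x y]
  exact (D.ch x).left_inv h

theorem pi_sec {x : S} {z : ι → ℂ} (h : z ∈ (D.ch x).target) : D.π (D.sec x z) = z := by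
  rw [← ch_eq D x]
  exact (D.ch x).right_inv h

theorem sec_base (x : S) : D.sec x (D.π x) = x := sec_pi D (ch_mem D x)

theorem sec_contAt (x : S) : ContinuousAt (D.sec x) (D.π x) :=
  (D.ch x).continuousAt_symm (ch_tgt D x)

theorem sec_tendsto (x : S) : Tendsto (D.sec x) (𝓝 (D.π x)) (𝓝 x) := by
  have := (sec_contAt D x).tendsto
  rwa [sec_base] at this

theorem ev_pi_sec (x : S) : ∀ᶠ z in 𝓝 (D.π x), D.π (D.sec x z) = z :=
  mem_of_superset ((D.ch x).open_target.mem_nhds (ch_tgt D x)) fun _ h => pi_sec D h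

theorem cont_of {Y : Type} [TopologicalSpace Y] {f : S → Y}
    (h : ∀ x, ContinuousAt (fun z => f (D.sec x z)) (D.π x)) : Continuous f :=
  continuous_iff_continuousAt.2 fun x =>
    ((h x).comp D.loc.continuous.continuousAt).congr
      (mem_of_superset ((D.ch x).open_source.mem_nhds (ch_mem D x)) fun y hy =>
        congrArg f (sec_pi D hy))

theorem germ {τ : (ι → ℂ) → S} {U : Set (ι → ℂ)} (hU : IsOpen U) (hc : ContinuousOn τ U)
    (hl : ∀ z ∈ U, D.π (τ z) = z) {z : ι → ℂ} (hz : z ∈ U) : τ =ᶠ[𝓝 z] D.sec (τ z) := by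
  filter_upwards [hU.mem_nhds hz, (hc.continuousAt (hU.mem_nhds hz)).eventually
    ((D.ch (τ z)).open_source.mem_nhds (ch_mem D _))] with w h1 h2
  have := sec_pi D h2
  rw [hl w h1] at this
  exact this.symm

variable {D}

theorem hol_on {u : S → ℂ} (hu : D.Hol u) {τ : (ι → ℂ) → S} {U : Set (ι → ℂ)} (hU : IsOpen U)
    (hc : ContinuousOn τ U) (hl : ∀ z ∈ U, D.π (τ z) = z) :
    DifferentiableOn ℂ (fun z => u (τ z)) U := fun z hz => by
  have a := hu (τ z)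
  rw [hl z hz] at a
  exact (a.congr_of_eventuallyEq ((germ D hU hc hl hz).fun_comp u)).differentiableWithinAt

theorem hol_ana {u : S → ℂ} (hu : D.Hol u) (x : S) :
    AnalyticAt ℂ (fun z => u (D.sec x z)) (D.π x) :=
  F.osgood (D.ch x).open_target
    (hol_on hu (D.ch x).open_target (D.ch x).continuousOn_symm fun _ h => pi_sec D h) _
    (ch_tgt D x)

theorem hol_cont {u : S → ℂ} (hu : D.Hol u) : Continuous u :=
  cont_of D fun x => (hu x).continuousAt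

theorem sm_cont {ψ : S → ℝ} (h : D.Sm ψ) : Continuous ψ :=
  cont_of D fun x => (h x).continuousAt

end sec

theorem one_le_nsq (y : ι → ℂ) : 1 ≤ nsq y :=
  le_add_of_nonneg_left (Finset.sum_nonneg fun _ _ => sq_nonneg _)

theorem nsq_pos (y : ι → ℂ) : 0 < nsq y := one_pos.trans_le (one_le_nsq y)

theorem norm_le_nsq (y : ι → ℂ) : ‖((1 : ℂ), y)‖ ^ 2 ≤ nsq y := by
  rw [Prod.norm_def]
  rcases le_total ‖(1 : ℂ)‖ ‖y‖ with h | h
  · rw [max_eq_right h]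
    exact (F.norm_sq_le_sum y).trans (le_add_of_nonneg_right zero_le_one)
  · rw [max_eq_left h, norm_one, one_pow]
    exact one_le_nsq y

theorem nsq_le_norm (y : ι → ℂ) : nsq y ≤ (Fintype.card ι + 1) * ‖((1 : ℂ), y)‖ ^ 2 := by
  have a : ‖y‖ ^ 2 ≤ ‖((1 : ℂ), y)‖ ^ 2 :=
    pow_le_pow_left₀ (norm_nonneg _) (norm_snd_le ((1 : ℂ), y)) 2
  have b : 1 ≤ ‖((1 : ℂ), y)‖ ^ 2 :=
    one_le_pow₀ (by simpa using norm_fst_le ((1 : ℂ), y))
  have c := F.sum_norm_sq_le y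
  have e := mul_le_mul_of_nonneg_left a (Nat.cast_nonneg (α := ℝ) (Fintype.card ι))
  rw [nsq]
  linarith

theorem contDiff_nsq {n : WithTop ℕ∞} : ContDiff ℝ n (nsq : (ι → ℂ) → ℝ) := by
  have := (F.contDiff_euclid (n := n) (0 : ι → ℂ)).add (contDiff_const (c := (1 : ℝ)))
  simp only [Pi.zero_apply, sub_zero] at this
  exact this

theorem levi_nsq_pos (p : ι → ℂ) {ξ : ι → ℂ} (h : ξ ≠ 0) :
    0 < F.levi (fun y => Real.log (nsq y)) p ξ := by
  have a := F.le_levi_log_euclid 0 p ξ one_pos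
  simp only [Pi.zero_apply, sub_zero] at a
  refine lt_of_lt_of_le (div_pos ?_ (pow_pos (nsq_pos p) 2)) a
  rw [one_mul]
  exact (pow_pos (norm_pos_iff.2 h) 2).trans_le (F.norm_sq_le_sum ξ)

variable {D : RD ι S} {d : ℕ} {A C : ℝ} {ψ : S → ℝ} {σ : S → (ι → ℂ) → S}

theorem mem_bal (x : S) : D.π x ∈ bal D C ψ x := mem_ball_self (Real.exp_pos _)

theorem Tame.nsq_le (h : Tame D d A C ψ σ) (x : S) : nsq (D.π x) ≤ Real.exp (C * ψ x + C) :=
  (Real.log_le_iff_le_exp (nsq_pos _)).1 (h.grow x)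

/-- the Schwarz bound -/
theorem schwarz_bound (h : Tame D d A C ψ σ) {c : S → ℝ} (c0 : ∀ x, 0 ≤ c x) {T : ℕ} {k : ℝ}
    {u : S → ℂ} (hu : D.Hol u) (hb : BdA D C ψ σ c T k u) (Λ : Submodule ℂ (ℂ × (ι → ℂ)))
    (l : ℂ × (ι → ℂ) →L[ℂ] ℂ)
    (hz : ∀ x, 0 < c x → ((1 : ℂ), D.π x) ∈ Λ → l (1, D.π x) = 0 → u x = 0)
    {x₀ : S} (m₀ : ((1 : ℂ), D.π x₀) ∈ Λ) (l₀ : l (1, D.π x₀) ≠ 0) :
    ∃ K : ℝ, 0 ≤ K ∧ ∀ x, ((1 : ℂ), D.π x) ∈ Λ →
      ‖u x‖ ^ 2 * c x ^ T * Real.exp (-(C * ψ x + C)) ^ 2 ≤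
        K * Real.exp (k * ψ x) * ‖l (1, D.π x)‖ ^ 2 := by
  obtain ⟨M, hM⟩ := hb
  have M0 : 0 ≤ M := by
    obtain ⟨W, -, -, w⟩ := hM x₀
    exact nonneg_of_mul_nonneg_left ((sq_nonneg _).trans (w _ (mem_bal x₀)).2) (Real.exp_pos _)
  by_cases hv : ∃ v : ι → ℂ, ((0 : ℂ), v) ∈ Λ ∧ l (0, v) ≠ 0
  · obtain ⟨v, vm, v1, b0⟩ : ∃ v : ι → ℂ, ((0 : ℂ), v) ∈ Λ ∧ ‖v‖ ≤ 1 ∧ l (0, v) ≠ 0 := by
      obtain ⟨v, vm, b0⟩ := hv
      have p : 0 < ‖v‖ + 1 := by positivity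
      have e : ((0 : ℂ), ((‖v‖ + 1 : ℝ) : ℂ)⁻¹ • v) = ((‖v‖ + 1 : ℝ) : ℂ)⁻¹ • ((0 : ℂ), v) := by
        simp
      refine ⟨((‖v‖ + 1 : ℝ) : ℂ)⁻¹ • v, e ▸ Λ.smul_mem _ vm, ?_, ?_⟩
      · rw [norm_smul, norm_inv, norm_real, Real.norm_of_nonneg p.le, inv_mul_le_iff₀ p]
        linarith
      · rw [e, map_smul]
        exact smul_ne_zero (inv_ne_zero (ofReal_ne_zero.2 p.ne')) b0
    refine ⟨4 * M / ‖l (0, v)‖ ^ 2, by positivity, fun x hx => ?_⟩
    obtain ⟨W, wd, wc, w⟩ := hM x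
    have mp : ∀ t ∈ ball (0 : ℂ) (Real.exp (-(C * ψ x + C))), D.π x + t • v ∈ bal D C ψ x :=
      fun t ht => by
        rw [bal, add_mem_ball_iff_norm, norm_smul]
        exact (mul_le_of_le_one_right (norm_nonneg _) v1).trans_lt (mem_ball_zero_iff.1 ht)
    have e : ∀ t : ℂ, ((1 : ℂ), D.π x + t • v) = ((1 : ℂ), D.π x) + t • ((0 : ℂ), v) :=
      fun t => by simp
    have s := schwarz_one (f := fun t => u (σ x (D.π x + t • v)) * W (D.π x + t • v))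
      (M := M * Real.exp (k * ψ x)) (Real.exp_pos (-(C * ψ x + C)))
      (((hol_on hu isOpen_ball (h.cont x) (h.lift x)).mul wd).comp
        (f := fun t : ℂ => D.π x + t • v) (by fun_prop) mp)
      (fun t ht => (w _ (mp t ht)).2) (t₀ := -l (1, D.π x) / l (0, v)) (fun ht => by
        have z := mp _ ht
        rcases (c0 (σ x (D.π x + (-l (1, D.π x) / l (0, v)) • v))).eq_or_lt with g | g
        · exact mul_eq_zero_of_right _ ((w _ z).1 g.symm)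
        · refine mul_eq_zero_of_left (hz _ g ?_ ?_) _
          · rw [h.lift x _ z, e]
            exact Λ.add_mem hx (Λ.smul_mem _ vm)
          · rw [h.lift x _ z, e, map_add, map_smul, smul_eq_mul, div_mul_cancel₀ _ b0,
              add_neg_cancel])
    simp only [zero_smul, add_zero, h.base, norm_mul, mul_pow, norm_div, norm_neg, div_pow] at s
    calc _ ≤ ‖u x‖ ^ 2 * ‖W (D.π x)‖ ^ 2 * Real.exp (-(C * ψ x + C)) ^ 2 := by gcongr
      _ ≤ _ := s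
      _ = _ := by ring
  · refine ⟨M / ‖l (1, D.π x₀)‖ ^ 2, by positivity, fun x hx => ?_⟩
    obtain ⟨W, -, wc, w⟩ := hM x
    have e : ((0 : ℂ), D.π x - D.π x₀) = ((1 : ℂ), D.π x) - ((1 : ℂ), D.π x₀) := by simp
    have e2 : l (1, D.π x) = l (1, D.π x₀) := by
      by_contra g
      exact hv ⟨D.π x - D.π x₀, e ▸ Λ.sub_mem hx m₀, by rwa [e, map_sub, sub_ne_zero]⟩
    have s := (w _ (mem_bal x)).2
    rw [h.base, norm_mul, mul_pow] at s
    have r : Real.exp (-(C * ψ x + C)) ^ 2 ≤ 1 :=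
      pow_le_one₀ (Real.exp_pos _).le (Real.exp_le_one_iff.2 (by
        have := (Real.log_nonneg (one_le_nsq _)).trans (h.grow x)
        linarith))
    have n : ‖l (1, D.π x₀)‖ ≠ 0 := norm_ne_zero_iff.2 l₀
    calc _ ≤ ‖u x‖ ^ 2 * ‖W (D.π x)‖ ^ 2 * 1 := by gcongr
      _ ≤ M * Real.exp (k * ψ x) := by rwa [mul_one]
      _ = _ := by
        rw [e2]
        field_simp

/-- the Schwarz bound in projective form -/
theorem q_bound (h : Tame D d A C ψ σ) {c : S → ℝ} (c0 : ∀ x, 0 ≤ c x) {T : ℕ} {k : ℝ}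
    {u : S → ℂ} (hu : D.Hol u) (hb : BdA D C ψ σ c T k u) (Λ : Submodule ℂ (ℂ × (ι → ℂ)))
    (l : ℂ × (ι → ℂ) →L[ℂ] ℂ)
    (hz : ∀ x, 0 < c x → ((1 : ℂ), D.π x) ∈ Λ → l (1, D.π x) = 0 → u x = 0)
    {x₀ : S} (m₀ : ((1 : ℂ), D.π x₀) ∈ Λ) (l₀ : l (1, D.π x₀) ≠ 0) :
    ∃ K : ℝ, ∀ x, ((1 : ℂ), D.π x) ∈ Λ →
      ‖u x‖ ^ 2 * c x ^ T * Real.exp (-((k + 3 * C) * ψ x)) ≤
        K * (‖l (1, D.π x)‖ ^ 2 / nsq (D.π x)) := by
  obtain ⟨K, K0, hK⟩ := schwarz_bound h c0 hu hb Λ l hz m₀ l₀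
  refine ⟨K * Real.exp (3 * C), fun x hx => ?_⟩
  have e1 : Real.exp (-((k + 3 * C) * ψ x)) = Real.exp (-(C * ψ x + C)) ^ 2 *
      (Real.exp (-(k * ψ x)) * Real.exp (3 * C) / Real.exp (C * ψ x + C)) := by
    rw [← Real.exp_add, ← Real.exp_sub, ← Real.exp_nat_mul, ← Real.exp_add]
    congr 1
    push_cast
    ring
  have e2 : Real.exp (k * ψ x) * Real.exp (-(k * ψ x)) = 1 := by
    rw [← Real.exp_add, add_neg_cancel, Real.exp_zero]
  have p := nsq_pos (D.π x)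
  calc _ = ‖u x‖ ^ 2 * c x ^ T * Real.exp (-(C * ψ x + C)) ^ 2 *
        (Real.exp (-(k * ψ x)) * Real.exp (3 * C) / Real.exp (C * ψ x + C)) := by
        rw [e1]
        ring
    _ ≤ K * Real.exp (k * ψ x) * ‖l (1, D.π x)‖ ^ 2 *
        (Real.exp (-(k * ψ x)) * Real.exp (3 * C) / nsq (D.π x)) := by
        have := h.nsq_le x
        refine mul_le_mul (hK x hx) (by gcongr) (by positivity) (by positivity)
    _ = K * Real.exp (3 * C) * (‖l (1, D.π x)‖ ^ 2 / nsq (D.π x)) *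
        (Real.exp (k * ψ x) * Real.exp (-(k * ψ x))) := by ring
    _ = _ := by rw [e2, mul_one]

end Pool.Agent.Lib.MP_5c318e_ag.Hyp
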