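import Pool.Agent.Lib.MP_5c318e_ag.U.HypC

/-! Upper count by the maximum principle: the induction on the dimension and the count. -/

set_option autoImplicit false

namespace Pool.Agent.Lib.MP_5c318e_ag.Hyp

open Set Metric Filter Topology Complex Module
open Pool.Agent.Lib.MP_9ff3e7_ag

variable {ι : Type} [Fintype ι] {S : Type} [TopologicalSpace S] [MeasurableSpace S]
  {D : RD ι S} {d : ℕ} {A C : ℝ} {ψ : S → ℝ} {σ : S → (ι → ℂ) → S}

/-- abstract induction on the dimension -/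
theorem climb {E : Type} [AddCommGroup E] [Module ℂ E] (Y : S → E) (P : S → Prop)
    (Cl : (S → ℂ) → Prop) {J j₀ j₁ B : ℕ}
    (base : ∀ Λ : Submodule ℂ E, finrank ℂ Λ = j₀ + 1 → ∃ s : Finset S, s.card ≤ B ∧
      ∀ u, Cl u → (∀ x ∈ s, u x = 0) → ∀ x, P x → Y x ∈ Λ → u x = 0)
    (stp : ∀ j, j₀ < j → j ≤ j₁ → ∀ Λ : Submodule ℂ E, finrank ℂ Λ = j + 1 →
      ∃ H : Fin J → Submodule ℂ E, (∀ i, finrank ℂ (H i) = j) ∧
        ∀ u, Cl u → (∀ i x, P x → Y x ∈ H i → u x = 0) → ∀ x, P x → Y x ∈ Λ → u x = 0)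
    (n : ℕ) (hn : j₀ + n ≤ j₁) (Λ : Submodule ℂ E) (hΛ : finrank ℂ Λ = j₀ + n + 1) :
    ∃ s : Finset S, s.card ≤ B * J ^ n ∧
      ∀ u, Cl u → (∀ x ∈ s, u x = 0) → ∀ x, P x → Y x ∈ Λ → u x = 0 := by
  classical
  induction n generalizing Λ with
  | zero => simpa using base Λ hΛ
  | succ n ih =>
    obtain ⟨H, hH, hu⟩ := stp (j₀ + (n + 1)) (by omega) hn Λ hΛ
    choose s sc su using fun i => ih (by omega) (H i) (hH i)
    refine ⟨Finset.univ.biUnion s, ?_, fun u cu hz => hu u cu fun i =>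
      su i u cu fun x hx => hz x (Finset.mem_biUnion.2 ⟨i, Finset.mem_univ _, hx⟩)⟩
    refine (Finset.card_biUnion_le_card_mul _ _ _ fun i _ => sc i).trans (le_of_eq ?_)
    rw [Finset.card_univ, Fintype.card_fin]
    ring

theorem base_pt (h : Tame D d A C ψ σ) (Λ : Submodule ℂ (ℂ × (ι → ℂ))) (hΛ : finrank ℂ Λ = 1) :
    ∃ s : Finset S, s.card ≤ d ∧ ∀ x, ((1 : ℂ), D.π x) ∈ Λ → x ∈ s := by
  by_cases e : ∃ y : ι → ℂ, ((1 : ℂ), y) ∈ Λ
  · obtain ⟨y, hy⟩ := e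
    have f : (D.π ⁻¹' {y}).Finite := finite_of_encard_le_coe (h.sheets y)
    refine ⟨f.toFinset, ?_, fun x hx => ?_⟩
    · have := h.sheets y
      rw [f.encard_eq_coe_toFinset_card] at this
      exact_mod_cast this
    · obtain ⟨a, ha⟩ := (finrank_eq_one_iff_of_nonzero' (⟨(1, y), hy⟩ : Λ)
        (fun z => by simpa using congrArg (fun v : Λ => v.1.1) z)).1 hΛ ⟨_, hx⟩
      have a1 : a = 1 := by simpa using congrArg (fun v : Λ => v.1.1) ha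
      have a2 : y = D.π x := by simpa [a1] using congrArg (fun v : Λ => v.1.2) ha
      simpa using a2.symm
  · exact ⟨∅, Nat.zero_le _, fun x hx => (e ⟨_, hx⟩).elim⟩

theorem wt_one (D : RD ι S) : Wt D 0 fun _ => 1 where
  cont := continuous_const
  nonneg _ := zero_le_one
  sm _ _ := contDiffAt_const
  ker x _ L hL := by
    obtain ⟨ξ, m, z⟩ := Submodule.exists_mem_ne_zero_of_ne_bot (p := L) fun e => by
      rw [e, finrank_bot] at hL
      exact lt_irrefl _ hL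
    exact ⟨ξ, m, z, by simp [RD.levi]⟩

theorem BdB.bdA {κ : ℝ} {u : S → ℂ} (h : BdB D C ψ σ κ u) :
    BdA D C ψ σ (fun _ => 1) 1 κ u := by
  obtain ⟨M, hM⟩ := h
  exact ⟨M, fun x => ⟨fun _ => 1, differentiableOn_const 1, by simp, fun z hz =>
    ⟨by simp, by simpa using hM x z hz⟩⟩⟩

theorem J_mono (h : Tame D d A C ψ σ) {k : ℝ} (hk : 0 ≤ k) {J j : ℕ} (hj : j ≤ Fintype.card ι)
    (hJ : ((Fintype.card ι + 1) * (k + 3 * C) + 1) * A < J) :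
    ((j + 1) * (k + 3 * C) + 1) * A < J := by
  have := h.A0
  have := h.C0
  have : (j : ℝ) ≤ Fintype.card ι := by exact_mod_cast hj
  refine lt_of_le_of_lt ?_ hJ
  gcongr

theorem points_plain (h : Tame D d A C ψ σ) {κ : ℝ} (hκ : 0 ≤ κ) {J : ℕ}
    (hJ : ((Fintype.card ι + 1) * (κ + 3 * C) + 1) * A < J) {n : ℕ} (hn : n ≤ Fintype.card ι)
    (Λ : Submodule ℂ (ℂ × (ι → ℂ))) (hΛ : finrank ℂ Λ = n + 1) :
    ∃ s : Finset S, s.card ≤ d * J ^ n ∧ ∀ u : S → ℂ, D.Hol u ∧ BdB D C ψ σ κ u →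
      (∀ x ∈ s, u x = 0) → ∀ x, ((1 : ℂ), D.π x) ∈ Λ → u x = 0 := by
  obtain ⟨s, sc, su⟩ := climb (fun x => ((1 : ℂ), D.π x)) (fun _ => (0 : ℝ) < 1)
    (fun u => D.Hol u ∧ BdB D C ψ σ κ u) (J := J) (j₀ := 0) (j₁ := Fintype.card ι) (B := d)
    (fun Λ hΛ => by
      obtain ⟨s, sc, su⟩ := base_pt h Λ hΛ
      exact ⟨s, sc, fun u _ hz x _ hx => hz x (su x hx)⟩)
    (fun j h0 h1 Λ hΛ => by
      obtain ⟨H, hH, hu⟩ := step h (wt_one D) one_ne_zero hκ h0 (J_mono h hκ h1 hJ) Λ hΛ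
      exact ⟨H, hH, fun u cu => hu u cu.1 cu.2.bdA⟩)
    n (by omega) Λ (by omega)
  exact ⟨s, sc, fun u cu hz x => su u cu hz x one_pos⟩

theorem finrank_top_eq :
    finrank ℂ (⊤ : Submodule ℂ (ℂ × (ι → ℂ))) = Fintype.card ι + 1 := by
  simp [add_comm]

/-- a finite uniqueness set; the bound does not depend on `T`, `c`, `M` -/
theorem points (h : Tame D d A C ψ σ) {ρ : ℕ} {c : S → ℝ} (hc : Wt D ρ c) {T : ℕ} (hT : T ≠ 0)
    {k κ : ℝ} (hk : 0 ≤ k) (hκ : 0 ≤ κ) {J₁ J₂ : ℕ}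
    (h₁ : ((Fintype.card ι + 1) * (k + 3 * C) + 1) * A < J₁)
    (h₂ : ((Fintype.card ι + 1) * (κ + 3 * C) + 1) * A < J₂) :
    ∃ s : Finset S, s.card ≤ d * J₁ ^ (Fintype.card ι - ρ) * J₂ ^ ρ ∧
      ∀ u : S → ℂ, D.Hol u → BdA D C ψ σ c T k u → BdB D C ψ σ κ u → (∀ x ∈ s, u x = 0) →
        ∀ x, 0 < c x → u x = 0 := by
  rcases le_total ρ (Fintype.card ι) with g | g
  · obtain ⟨s, sc, su⟩ := climb (fun x => ((1 : ℂ), D.π x)) (fun x => 0 < c x)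
      (fun u => D.Hol u ∧ BdA D C ψ σ c T k u ∧ BdB D C ψ σ κ u) (J := J₁) (j₀ := ρ)
      (j₁ := Fintype.card ι) (B := d * J₂ ^ ρ)
      (fun Λ hΛ => by
        obtain ⟨s, sc, su⟩ := points_plain h hκ h₂ g Λ hΛ
        exact ⟨s, sc, fun u cu hz x _ hx => su u ⟨cu.1, cu.2.2⟩ hz x hx⟩)
      (fun j h0 h1 Λ hΛ => by
        obtain ⟨H, hH, hu⟩ := step h hc hT hk h0 (J_mono h hk h1 h₁) Λ hΛ
        exact ⟨H, hH, fun u cu => hu u cu.1 cu.2.1⟩)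
      (Fintype.card ι - ρ) (by omega) ⊤ (by rw [finrank_top_eq]; omega)
    exact ⟨s, sc.trans (le_of_eq (by ring)), fun u h1 h2 h3 hz x hx =>
      su u ⟨h1, h2, h3⟩ hz x hx Submodule.mem_top⟩
  · obtain ⟨s, sc, su⟩ := points_plain h hκ h₂ le_rfl ⊤ finrank_top_eq
    have J0 : 0 < J₂ := by
      have := h.A0
      have := h.C0
      have p : (0 : ℝ) < J₂ := lt_of_le_of_lt (by positivity) h₂
      exact_mod_cast p
    refine ⟨s, sc.trans ?_, fun u h1 _ h3 hz x _ => su u ⟨h1, h3⟩ hz x Submodule.mem_top⟩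
    rw [Nat.sub_eq_zero_of_le g, pow_zero, mul_one]
    exact Nat.mul_le_mul_left _ (Nat.pow_le_pow_right J0 g)

theorem finrank_le_of_points {X : Type} (V : Submodule ℂ (X → ℂ)) (s : Finset X)
    (h : ∀ u ∈ V, (∀ x ∈ s, u x = 0) → u = 0) :
    FiniteDimensional ℂ V ∧ finrank ℂ V ≤ s.card := by
  let r : V →ₗ[ℂ] (s → ℂ) := LinearMap.pi fun x => LinearMap.proj (x : X) ∘ₗ V.subtype
  have inj : Function.Injective r := by
    rw [← LinearMap.ker_eq_bot, LinearMap.ker_eq_bot']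
    exact fun u hu => Subtype.ext (h u u.2 fun x hx => congrFun hu ⟨x, hx⟩)
  exact ⟨FiniteDimensional.of_injective r inj, by
    simpa using LinearMap.finrank_le_finrank_of_injective inj⟩

/-- THE UPPER COUNT -/
theorem count (h : Tame D d A C ψ σ) {ρ : ℕ} {c : S → ℝ} (hc : Wt D ρ c)
    (hd : Dense {x | 0 < c x}) {T : ℕ} (hT : T ≠ 0)
    {k κ : ℝ} (hk : 0 ≤ k) (hκ : 0 ≤ κ) {J₁ J₂ : ℕ}
    (h₁ : ((Fintype.card ι + 1) * (k + 3 * C) + 1) * A < J₁)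
    (h₂ : ((Fintype.card ι + 1) * (κ + 3 * C) + 1) * A < J₂)
    (V : Submodule ℂ (S → ℂ))
    (hV : ∀ u ∈ V, D.Hol u ∧ BdA D C ψ σ c T k u ∧ BdB D C ψ σ κ u) :
    FiniteDimensional ℂ V ∧ finrank ℂ V ≤ d * J₁ ^ (Fintype.card ι - ρ) * J₂ ^ ρ := by
  obtain ⟨s, sc, su⟩ := points h hc hT hk hκ h₁ h₂
  obtain ⟨a, b⟩ := finrank_le_of_points V s fun u hu hz =>
    Continuous.ext_on hd (hol_cont (hV u hu).1) continuous_zero
      (su u (hV u hu).1 (hV u hu).2.1 (hV u hu).2.2 hz)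
  exact ⟨a, b.trans sc⟩

/-- moderate growth alone (no weight) -/
theorem count_plain (h : Tame D d A C ψ σ) {κ : ℝ} (hκ : 0 ≤ κ) {J : ℕ}
    (h₂ : ((Fintype.card ι + 1) * (κ + 3 * C) + 1) * A < J) (V : Submodule ℂ (S → ℂ))
    (hV : ∀ u ∈ V, D.Hol u ∧ BdB D C ψ σ κ u) :
    FiniteDimensional ℂ V ∧ finrank ℂ V ≤ d * J ^ Fintype.card ι := by
  obtain ⟨s, sc, su⟩ := points_plain h hκ h₂ le_rfl ⊤ finrank_top_eq
  obtain ⟨a, b⟩ := finrank_le_of_points V s fun u hu hz =>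
    funext fun x => su u (hV u hu) hz x Submodule.mem_top
  exact ⟨a, b.trans sc⟩

/-- the hypothesis `Wt.ker` from a subspace of codimension at most `ρ` -/
theorem ker_of_sub {ρ : ℕ} (K : Submodule ℂ (ι → ℂ)) (hK : Fintype.card ι ≤ finrank ℂ K + ρ)
    (L : Submodule ℂ (ι → ℂ)) (hL : ρ < finrank ℂ L) : ∃ ξ ∈ L, ξ ≠ 0 ∧ ξ ∈ K := by
  by_contra g
  have := Submodule.finrank_add_finrank_le_of_disjoint (s := L) (t := K)
    (Submodule.disjoint_def.2 fun ξ h1 h2 => by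
      by_contra z
      exact g ⟨ξ, h1, z, h2⟩)
  rw [finrank_fintype_fun_eq_card] at this
  omega

end Pool.Agent.Lib.MP_5c318e_ag.Hyp
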