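import Pool.Agent.Lib.MP_5c318e_ag.U.HypB

/-! Upper count by the maximum principle, part C: the step from hyperplanes to a subspace. -/

set_option autoImplicit false

namespace Pool.Agent.Lib.MP_5c318e_ag.Hyp

open Set Metric Filter Topology Complex Module
open Pool.Agent.Lib.MP_9ff3e7_ag

variable {ι : Type} [Fintype ι] {S : Type} [TopologicalSpace S] [MeasurableSpace S]
  {D : RD ι S} {d : ℕ} {A C : ℝ} {ψ : S → ℝ} {σ : S → (ι → ℂ) → S}

/-- directions of the affine subspace -/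
theorem finrank_dir (Λ : Submodule ℂ (ℂ × (ι → ℂ))) :
    finrank ℂ Λ ≤ finrank ℂ (Λ.comap (LinearMap.inr ℂ ℂ (ι → ℂ))) + 1 := by
  have a := finrank_le_inf_ker Λ (LinearMap.fst ℂ ℂ (ι → ℂ))
  have b := (Submodule.equivMapOfInjective (LinearMap.inr ℂ ℂ (ι → ℂ)) LinearMap.inr_injective
    (Λ.comap (LinearMap.inr ℂ ℂ (ι → ℂ)))).finrank_eq
  rw [Submodule.map_comap_eq, LinearMap.range_inr, inf_comm] at b
  omega

theorem ana_form (l : ℂ × (ι → ℂ) →L[ℂ] ℂ) (p : ι → ℂ) :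
    AnalyticAt ℂ (fun z : ι → ℂ => l (1, z)) p :=
  (l.analyticAt _).comp (analyticAt_const.prod analyticAt_id)

/-- no maximum -/
theorem no_max (h : Tame D d A C ψ σ) {c : S → ℝ} {T N J : ℕ} {k : ℝ} (hk : 0 ≤ k)
    (hJ : (N * k + 1) * A < J) {u : S → ℂ} (hu : D.Hol u) (l : Fin J → ℂ × (ι → ℂ) →L[ℂ] ℂ)
    {x : S} (u0 : u x ≠ 0) (c0 : 0 < c x) (l0 : ∀ i, l i (1, D.π x) ≠ 0)
    (cs : ContDiffAt ℝ 2 (fun z => c (D.sec x z)) (D.π x)) {ξ : ι → ℂ} (ξ0 : ξ ≠ 0)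
    (hξ : 0 ≤ D.levi (fun y => Real.log (c y)) x ξ)
    (hm : ∀ᶠ y in 𝓝 x, (∃ t : ℂ, D.π y = D.π x + t • ξ) →
      (‖u y‖ ^ 2 * c y ^ T * Real.exp (-(k * ψ y))) ^ N * Real.exp (-ψ y) /
          ∏ i, ‖l i (1, D.π y)‖ ^ 2 / nsq (D.π y) ≤
        (‖u x‖ ^ 2 * c x ^ T * Real.exp (-(k * ψ x))) ^ N * Real.exp (-ψ x) /
          ∏ i, ‖l i (1, D.π x)‖ ^ 2 / nsq (D.π x)) : False := by
  have ua := hol_ana hu x
  have b := sec_base D x
  have u1 : (fun z => u (D.sec x z)) (D.π x) ≠ 0 := by simpa only [b] using u0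
  have c1 : (fun z => c (D.sec x z)) (D.π x) ≠ 0 := by simpa only [b] using c0.ne'
  have s1 : ContDiffAt ℝ 2 (fun z => Real.log (‖u (D.sec x z)‖ ^ 2)) (D.π x) :=
    (F.contDiffAt_normSq ua).log (pow_ne_zero 2 (norm_ne_zero_iff.2 u1))
  have s2 : ContDiffAt ℝ 2 (fun z => Real.log (c (D.sec x z))) (D.π x) := cs.log c1
  have s3 : ContDiffAt ℝ 2 (fun z => ψ (D.sec x z)) (D.π x) := (h.sm x).of_le (by norm_cast)
  have s4 : ∀ i, ContDiffAt ℝ 2 (fun z => Real.log (‖l i (1, z)‖ ^ 2)) (D.π x) := fun i =>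
    (F.contDiffAt_normSq (ana_form (l i) _)).log (pow_ne_zero 2 (norm_ne_zero_iff.2 (l0 i)))
  have s5 : ContDiffAt ℝ 2 (fun z => Real.log (nsq z)) (D.π x) :=
    contDiff_nsq.contDiffAt.log (nsq_pos _).ne'
  let g : (ι → ℂ) → ℝ := fun z =>
    (N * Real.log (‖u (D.sec x z)‖ ^ 2) + (N * T) * Real.log (c (D.sec x z))) -
      (N * k + 1) * ψ (D.sec x z) -
      ∑ i, (Real.log (‖l i (1, z)‖ ^ 2) - Real.log (nsq z))
  have t1 := contDiffAt_const (c := (N : ℝ)).mul s1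
  have t2 := contDiffAt_const (c := (N * T : ℝ)).mul s2
  have t3 := contDiffAt_const (c := (N * k + 1 : ℝ)).mul s3
  have t4 := ContDiffAt.sum (s := Finset.univ) fun i _ => (s4 i).sub s5
  have lg : F.levi g (D.π x) ξ = (N * T) * D.levi (fun y => Real.log (c y)) x ξ -
      (N * k + 1) * D.levi ψ x ξ + J * F.levi (fun z => Real.log (nsq z)) (D.π x) ξ := by
    rw [F.levi_sub ((t1.add t2).sub t3) t4, F.levi_sub (t1.add t2) t3, F.levi_add t1 t2,
      F.levi_const_mul _ s1, F.levi_const_mul _ s2, F.levi_const_mul _ s3,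
      F.levi_sum _ fun i _ => (s4 i).sub s5, levi_log_normSq ua u1,
      Finset.sum_congr rfl fun i _ => F.levi_sub (s4 i) s5 ξ,
      Finset.sum_congr rfl fun i _ => by rw [levi_log_normSq (ana_form (l i) _) (l0 i)]]
    simp [RD.levi]
  have w := levi_nsq_pos (D.π x) ξ0
  have pos : 0 < F.levi g (D.π x) ξ := by
    have a1 := mul_le_mul_of_nonneg_left (h.lev x ξ) (by positivity : (0 : ℝ) ≤ N * k + 1)
    have a2 := mul_lt_mul_of_pos_right hJ w
    have a3 := mul_nonneg (by positivity : (0 : ℝ) ≤ N * T) hξ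
    rw [lg]
    linarith
  have key : ∀ y : S, u y ≠ 0 → 0 < c y → (∀ i, l i (1, D.π y) ≠ 0) →
      0 < (‖u y‖ ^ 2 * c y ^ T * Real.exp (-(k * ψ y))) ^ N * Real.exp (-ψ y) /
          ∏ i, ‖l i (1, D.π y)‖ ^ 2 / nsq (D.π y) ∧
      Real.log ((‖u y‖ ^ 2 * c y ^ T * Real.exp (-(k * ψ y))) ^ N * Real.exp (-ψ y) /
          ∏ i, ‖l i (1, D.π y)‖ ^ 2 / nsq (D.π y)) =
        (N * Real.log (‖u y‖ ^ 2) + (N * T) * Real.log (c y)) - (N * k + 1) * ψ y -
          ∑ i, (Real.log (‖l i (1, D.π y)‖ ^ 2) - Real.log (nsq (D.π y))) := by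
    intro y h1 h2 h3
    have p1 : 0 < ‖u y‖ ^ 2 := pow_pos (norm_pos_iff.2 h1) 2
    have p2 : ∀ i, 0 < ‖l i (1, D.π y)‖ ^ 2 := fun i => pow_pos (norm_pos_iff.2 (h3 i)) 2
    have p3 : ∀ i, 0 < ‖l i (1, D.π y)‖ ^ 2 / nsq (D.π y) := fun i => div_pos (p2 i) (nsq_pos _)
    have p4 := Finset.prod_pos (s := Finset.univ) fun i _ => p3 i
    refine ⟨by positivity, ?_⟩
    rw [Real.log_div (by positivity) p4.ne', Real.log_prod fun i _ => (p3 i).ne',
      Finset.sum_congr rfl fun i _ => Real.log_div (p2 i).ne' (nsq_pos _).ne',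
      Real.log_mul (by positivity) (by positivity), Real.log_pow (‖u y‖ ^ 2 * c y ^ T * _),
      Real.log_mul (by positivity) (by positivity), Real.log_mul (by positivity) (by positivity),
      Real.log_pow (c y), Real.log_exp, Real.log_exp]
    ring
  have e1 : ∀ᶠ z in 𝓝 (D.π x), u (D.sec x z) ≠ 0 := ua.continuousAt.eventually_ne u1
  have e2 : ∀ᶠ z in 𝓝 (D.π x), 0 < c (D.sec x z) :=
    cs.continuousAt.eventually (lt_mem_nhds (by simpa only [b] using c0))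
  have e3 : ∀ᶠ z in 𝓝 (D.π x), ∀ i, l i (1, z) ≠ 0 :=
    eventually_all.2 fun i => (ana_form (l i) _).continuousAt.eventually_ne (l0 i)
  have tt : Tendsto (fun t : ℂ => D.π x + t • ξ) (𝓝 0) (𝓝 (D.π x)) :=
    Continuous.tendsto' (by fun_prop) 0 _ (by simp)
  refine (levi_nonpos_line (((t1.add t2).sub t3).sub t4) (ξ := ξ) ?_).not_gt pos
  filter_upwards [tt.eventually e1, tt.eventually e2, tt.eventually e3,
    tt.eventually (ev_pi_sec D x), tt.eventually ((sec_tendsto D x).eventually hm)]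
    with t h1 h2 h3 h4 h5
  obtain ⟨k1, k2⟩ := key _ h1 h2 (by rwa [h4])
  have k3 := Real.log_le_log k1 (h5 ⟨t, h4⟩)
  rw [k2, (key x u0 c0 l0).2, h4] at k3
  simpa only [b] using k3

/-- the step -/
theorem step (h : Tame D d A C ψ σ) {ρ : ℕ} {c : S → ℝ} (hc : Wt D ρ c) {T : ℕ} (hT : T ≠ 0)
    {k : ℝ} (hk : 0 ≤ k) {J j : ℕ} (hj : ρ < j) (hJ : ((j + 1) * (k + 3 * C) + 1) * A < J)
    (Λ : Submodule ℂ (ℂ × (ι → ℂ))) (hΛ : finrank ℂ Λ = j + 1) :
    ∃ H : Fin J → Submodule ℂ (ℂ × (ι → ℂ)), (∀ i, finrank ℂ (H i) = j) ∧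
      ∀ u : S → ℂ, D.Hol u → BdA D C ψ σ c T k u →
        (∀ i x, 0 < c x → ((1 : ℂ), D.π x) ∈ H i → u x = 0) →
          ∀ x, 0 < c x → ((1 : ℂ), D.π x) ∈ Λ → u x = 0 := by
  classical
  obtain ⟨l, hl, κ, κ0, κ1, hκ⟩ := forms Λ hΛ J
  refine ⟨_, hl, fun u hu hb hz x₀ c₀ m₀ => ?_⟩
  by_contra u₀
  have C0 := h.C0
  have J0 : 0 < J := by
    have := h.A0
    have p : (0 : ℝ) < J := lt_of_le_of_lt (by positivity) hJ
    exact_mod_cast p
  have hz' : ∀ i x, 0 < c x → ((1 : ℂ), D.π x) ∈ Λ → l i (1, D.π x) = 0 → u x = 0 :=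
    fun i x h1 h2 h3 => hz i x h1 ⟨h2, h3⟩
  choose K hK using fun i =>
    q_bound h hc.nonneg hu hb Λ (l i) (hz' i) m₀ fun e => u₀ (hz' i x₀ c₀ m₀ e)
  obtain ⟨K₀, hK₀⟩ := Finite.exists_le K
  obtain ⟨M₀, hM₀⟩ := Finite.exists_le fun i => ‖l i‖ ^ 2
  let lam : Fin J → S → ℝ := fun i x => ‖l i (1, D.π x)‖ ^ 2 / nsq (D.π x)
  let q : S → ℝ := fun x => ‖u x‖ ^ 2 * c x ^ T * Real.exp (-((k + 3 * C) * ψ x))
  have q0 : ∀ x, 0 ≤ q x := fun x =>
    mul_nonneg (mul_nonneg (sq_nonneg _) (pow_nonneg (hc.nonneg x) _)) (Real.exp_pos _).le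
  have l0 : ∀ i x, 0 ≤ lam i x := fun i x => div_nonneg (sq_nonneg _) (nsq_pos _).le
  have lM : ∀ i x, lam i x ≤ max M₀ 1 := fun i x => by
    refine le_trans ?_ ((hM₀ i).trans (le_max_left _ _))
    rw [div_le_iff₀ (nsq_pos _)]
    refine (pow_le_pow_left₀ (norm_nonneg _) ((l i).le_opNorm _) 2).trans ?_
    rw [mul_pow]
    exact mul_le_mul_of_nonneg_left (norm_le_nsq _) (sq_nonneg _)
  have pe : (0 : ℝ) < Fintype.card ι + 1 := by positivity
  have κ2 : κ ^ 2 / (Fintype.card ι + 1) ≤ 1 := by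
    rw [div_le_one pe]
    have := pow_le_one₀ (n := 2) κ0.le κ1
    have := Nat.cast_nonneg (α := ℝ) (Fintype.card ι)
    linarith
  have few : ∀ x, ((1 : ℂ), D.π x) ∈ Λ →
      (Finset.univ.filter fun i => lam i x < κ ^ 2 / (Fintype.card ι + 1)).card ≤ j :=
    fun x hx => le_trans (Finset.card_le_card fun i hi => by
      have a := (Finset.mem_filter.1 hi).2
      refine Finset.mem_filter.2 ⟨Finset.mem_univ _, lt_of_pow_lt_pow_left₀ 2 (by positivity) ?_⟩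
      rw [div_lt_div_iff₀ (nsq_pos _) pe] at a
      have b := mul_le_mul_of_nonneg_left (nsq_le_norm (D.π x)) (sq_nonneg κ)
      rw [mul_pow]
      exact lt_of_mul_lt_mul_right (a := (Fintype.card ι + 1 : ℝ)) (by linarith) pe.le) (hκ _ hx)
  have cψ := sm_cont h.sm
  have cπ := D.loc.continuous
  have cu := hol_cont hu
  have cc := hc.cont
  obtain ⟨B, hB⟩ : ∃ B, ∀ x, Real.exp (-ψ x) ≤ B := by
    obtain ⟨m, hm⟩ := ((h.cpt 0).image cψ).bddBelow
    refine ⟨Real.exp (-min m 0), fun x => Real.exp_le_exp.2 (neg_le_neg ?_)⟩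
    rcases le_total (ψ x) 0 with g | g
    · exact (min_le_left _ _).trans (hm ⟨x, g, rfl⟩)
    · exact (min_le_right _ _).trans g
  have K1 : 0 < max K₀ 1 := lt_max_of_lt_right one_pos
  have M1 : 0 < max M₀ 1 := lt_max_of_lt_right one_pos
  obtain ⟨x, m, f0, lp, mx⟩ := exists_max (⟨0, J0⟩ : Fin J)
    (Z := {x | ((1 : ℂ), D.π x) ∈ Λ}) (ψ := ψ) (f := fun x => q x ^ (j + 1) * Real.exp (-ψ x))
    (lam := lam) (Λ.closed_of_finiteDimensional.preimage (continuous_const.prodMk cπ)) h.cpt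
    (by fun_prop)
    (fun i => Continuous.div (by fun_prop) ((contDiff_nsq (n := 0)).continuous.comp cπ)
      fun x => (nsq_pos _).ne')
    (K := max K₀ 1 * (max K₀ 1 * max M₀ 1) ^ j / (κ ^ 2 / (Fintype.card ι + 1)) ^ J)
    (by positivity) M1 hB l0 lM
    (fun x hx i => mul_le_mul_of_nonneg_right
      (prod_bound (q0 x) (le_max_right _ _) (le_max_right _ _) (by positivity) κ2
        (fun i => l0 i x) (fun i => lM i x)
        (fun i => (hK i x hx).trans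
          (mul_le_mul_of_nonneg_right ((hK₀ i).trans (le_max_left _ _)) (l0 i x)))
        (few x hx) i) (Real.exp_pos _).le)
    (x₀ := x₀) m₀ (by
      have : 0 < ‖u x₀‖ := norm_pos_iff.2 u₀
      positivity)
  have q1 : q x ≠ 0 := fun e => by simp [e] at f0
  have u1 : u x ≠ 0 := fun e => q1 (by simp [q, e])
  have c1 : 0 < c x := (hc.nonneg x).lt_of_ne fun e => q1 (by simp [q, ← e, hT])
  obtain ⟨ξ, ξm, ξ0, hξ⟩ := hc.ker x c1 (Λ.comap (LinearMap.inr ℂ ℂ (ι → ℂ))) (by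
    have := finrank_dir Λ
    omega)
  refine no_max h (c := c) (T := T) (N := j + 1) (k := k + 3 * C) (by positivity)
    (by exact_mod_cast hJ) hu l u1 c1 (fun i e => ?_) (hc.sm x c1) ξ0 hξ
    (Eventually.of_forall fun y ⟨t, ht⟩ => mx y ?_)
  · have := lp i
    simp [lam, e] at this
  · have e : ((1 : ℂ), D.π y) = ((1 : ℂ), D.π x) + t • ((0 : ℂ), ξ) := by simp [ht]
    rw [mem_setOf_eq, e]
    exact Λ.add_mem m (Λ.smul_mem _ ξm)

end Pool.Agent.Lib.MP_5c318e_ag.Hyp
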