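import Pool.Agent.Lib.MP_5c318e_ag.U.Hyp

/-! Upper count by the maximum principle, relative form: the count over an affine subspace. The
subspace is given by its cone `Λ₀`; a point `x` lies over it when `(1, π x) ∈ Λ₀`, a vector `ξ` is a
direction of it when `(0, ξ) ∈ Λ₀`. -/

set_option autoImplicit false

namespace Pool.Agent.Lib.MP_5c318e_ag.Hyp

open Set Metric Filter Topology Complex Module
open Pool.Agent.Lib.MP_9ff3e7_ag

variable {ι : Type} [Fintype ι] {S : Type} [TopologicalSpace S] [MeasurableSpace S]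
  {D : RD ι S} {d : ℕ} {A C : ℝ} {ψ : S → ℝ} {σ : S → (ι → ℂ) → S}

/-- the weight, with the kernel hypothesis only over `Λ₀` and for directions of `Λ₀` -/
structure WtR (D : RD ι S) (Λ₀ : Submodule ℂ (ℂ × (ι → ℂ))) (ρ : ℕ) (c : S → ℝ) : Prop where
  cont : Continuous c
  nonneg : ∀ x, 0 ≤ c x
  sm : ∀ x, 0 < c x → ContDiffAt ℝ 2 (fun z => c (D.sec x z)) (D.π x)
  ker : ∀ x, 0 < c x → ((1 : ℂ), D.π x) ∈ Λ₀ → ∀ L : Submodule ℂ (ι → ℂ),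
    (∀ ξ ∈ L, ((0 : ℂ), ξ) ∈ Λ₀) → ρ < Module.finrank ℂ L →
      ∃ ξ ∈ L, ξ ≠ 0 ∧ 0 ≤ D.levi (fun y => Real.log (c y)) x ξ

/-- the step, relative form -/
theorem step_rel (h : Tame D d A C ψ σ) {Λ₀ : Submodule ℂ (ℂ × (ι → ℂ))} {ρ : ℕ} {c : S → ℝ}
    (hc : WtR D Λ₀ ρ c) {T : ℕ} (hT : T ≠ 0)
    {k : ℝ} (hk : 0 ≤ k) {J j : ℕ} (hj : ρ < j) (hJ : ((j + 1) * (k + 3 * C) + 1) * A < J)
    (Λ : Submodule ℂ (ℂ × (ι → ℂ))) (le : Λ ≤ Λ₀) (hΛ : finrank ℂ Λ = j + 1) :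
    ∃ H : Fin J → Submodule ℂ (ℂ × (ι → ℂ)), (∀ i, H i ≤ Λ₀ ∧ finrank ℂ (H i) = j) ∧
      ∀ u : S → ℂ, D.Hol u → BdA D C ψ σ c T k u →
        (∀ i x, 0 < c x → ((1 : ℂ), D.π x) ∈ H i → u x = 0) →
          ∀ x, 0 < c x → ((1 : ℂ), D.π x) ∈ Λ → u x = 0 := by
  classical
  obtain ⟨l, hl, κ, κ0, κ1, hκ⟩ := forms Λ hΛ J
  refine ⟨_, fun i => ⟨inf_le_left.trans le, hl i⟩, fun u hu hb hz x₀ c₀ m₀ => ?_⟩
  by_contra u₀
  have C0 := h.C0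
  have J0 : 0 < J := by
    have := h.A0
    have p : (0 : ℝ) < J := lt_of_le_of_lt (by positivity) hJ
    exact_mod_cast p
  have hz' : ∀ i x, 0 < c x → ((1 : ℂ), D.π x) ∈ Λ → l i (1, D.π x) = 0 → u x = 0 :=
    fun i x h1 h2 h3 => hz i x h1 ⟨h2, h3⟩
  choose K hK using fun i =>
    q_bound h hc.nonneg hu hb Λ (l i) (hz' i) m₀ fun e => u₀ (hz' i x₀ c₀ m₀ e)
  obtain ⟨K₀, hK₀⟩ := Finite.exists_le K
  obtain ⟨M₀, hM₀⟩ := Finite.exists_le fun i => ‖l i‖ ^ 2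
  let lam : Fin J → S → ℝ := fun i x => ‖l i (1, D.π x)‖ ^ 2 / nsq (D.π x)
  let q : S → ℝ := fun x => ‖u x‖ ^ 2 * c x ^ T * Real.exp (-((k + 3 * C) * ψ x))
  have q0 : ∀ x, 0 ≤ q x := fun x =>
    mul_nonneg (mul_nonneg (sq_nonneg _) (pow_nonneg (hc.nonneg x) _)) (Real.exp_pos _).le
  have l0 : ∀ i x, 0 ≤ lam i x := fun i x => div_nonneg (sq_nonneg _) (nsq_pos _).le
  have lM : ∀ i x, lam i x ≤ max M₀ 1 := fun i x => by
    refine le_trans ?_ ((hM₀ i).trans (le_max_left _ _))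
    rw [div_le_iff₀ (nsq_pos _)]
    refine (pow_le_pow_left₀ (norm_nonneg _) ((l i).le_opNorm _) 2).trans ?_
    rw [mul_pow]
    exact mul_le_mul_of_nonneg_left (norm_le_nsq _) (sq_nonneg _)
  have pe : (0 : ℝ) < Fintype.card ι + 1 := by positivity
  have κ2 : κ ^ 2 / (Fintype.card ι + 1) ≤ 1 := by
    rw [div_le_one pe]
    have := pow_le_one₀ (n := 2) κ0.le κ1
    have := Nat.cast_nonneg (α := ℝ) (Fintype.card ι)
    linarith
  have few : ∀ x, ((1 : ℂ), D.π x) ∈ Λ →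
      (Finset.univ.filter fun i => lam i x < κ ^ 2 / (Fintype.card ι + 1)).card ≤ j :=
    fun x hx => le_trans (Finset.card_le_card fun i hi => by
      have a := (Finset.mem_filter.1 hi).2
      refine Finset.mem_filter.2 ⟨Finset.mem_univ _, lt_of_pow_lt_pow_left₀ 2 (by positivity) ?_⟩
      rw [div_lt_div_iff₀ (nsq_pos _) pe] at a
      have b := mul_le_mul_of_nonneg_left (nsq_le_norm (D.π x)) (sq_nonneg κ)
      rw [mul_pow]
      exact lt_of_mul_lt_mul_right (a := (Fintype.card ι + 1 : ℝ)) (by linarith) pe.le) (hκ _ hx)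
  have cψ := sm_cont h.sm
  have cπ := D.loc.continuous
  have cu := hol_cont hu
  have cc := hc.cont
  obtain ⟨B, hB⟩ : ∃ B, ∀ x, Real.exp (-ψ x) ≤ B := by
    obtain ⟨m, hm⟩ := ((h.cpt 0).image cψ).bddBelow
    refine ⟨Real.exp (-min m 0), fun x => Real.exp_le_exp.2 (neg_le_neg ?_)⟩
    rcases le_total (ψ x) 0 with g | g
    · exact (min_le_left _ _).trans (hm ⟨x, g, rfl⟩)
    · exact (min_le_right _ _).trans g
  have K1 : 0 < max K₀ 1 := lt_max_of_lt_right one_pos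
  have M1 : 0 < max M₀ 1 := lt_max_of_lt_right one_pos
  obtain ⟨x, m, f0, lp, mx⟩ := exists_max (⟨0, J0⟩ : Fin J)
    (Z := {x | ((1 : ℂ), D.π x) ∈ Λ}) (ψ := ψ) (f := fun x => q x ^ (j + 1) * Real.exp (-ψ x))
    (lam := lam) (Λ.closed_of_finiteDimensional.preimage (continuous_const.prodMk cπ)) h.cpt
    (by fun_prop)
    (fun i => Continuous.div (by fun_prop) ((contDiff_nsq (n := 0)).continuous.comp cπ)
      fun x => (nsq_pos _).ne')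
    (K := max K₀ 1 * (max K₀ 1 * max M₀ 1) ^ j / (κ ^ 2 / (Fintype.card ι + 1)) ^ J)
    (by positivity) M1 hB l0 lM
    (fun x hx i => mul_le_mul_of_nonneg_right
      (prod_bound (q0 x) (le_max_right _ _) (le_max_right _ _) (by positivity) κ2
        (fun i => l0 i x) (fun i => lM i x)
        (fun i => (hK i x hx).trans
          (mul_le_mul_of_nonneg_right ((hK₀ i).trans (le_max_left _ _)) (l0 i x)))
        (few x hx) i) (Real.exp_pos _).le)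
    (x₀ := x₀) m₀ (by
      have : 0 < ‖u x₀‖ := norm_pos_iff.2 u₀
      positivity)
  have q1 : q x ≠ 0 := fun e => by simp [e] at f0
  have u1 : u x ≠ 0 := fun e => q1 (by simp [q, e])
  have c1 : 0 < c x := (hc.nonneg x).lt_of_ne fun e => q1 (by simp [q, ← e, hT])
  obtain ⟨ξ, ξm, ξ0, hξ⟩ := hc.ker x c1 (le m) (Λ.comap (LinearMap.inr ℂ ℂ (ι → ℂ)))
    (fun ξ hξ => le hξ) (by
    have := finrank_dir Λ
    omega)
  refine no_max h (c := c) (T := T) (N := j + 1) (k := k + 3 * C) (by positivity)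
    (by exact_mod_cast hJ) hu l u1 c1 (fun i e => ?_) (hc.sm x c1) ξ0 hξ
    (Eventually.of_forall fun y ⟨t, ht⟩ => mx y ?_)
  · have := lp i
    simp [lam, e] at this
  · have e : ((1 : ℂ), D.π y) = ((1 : ℂ), D.π x) + t • ((0 : ℂ), ξ) := by simp [ht]
    rw [mem_setOf_eq, e]
    exact Λ.add_mem m (Λ.smul_mem _ ξm)

theorem climb_rel {E : Type} [AddCommGroup E] [Module ℂ E] (Λ₀ : Submodule ℂ E) (Y : S → E)
    (P : S → Prop) (Cl : (S → ℂ) → Prop) {J j₀ j₁ B : ℕ}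
    (base : ∀ Λ : Submodule ℂ E, finrank ℂ Λ = j₀ + 1 → ∃ s : Finset S, s.card ≤ B ∧
      ∀ u, Cl u → (∀ x ∈ s, u x = 0) → ∀ x, P x → Y x ∈ Λ → u x = 0)
    (stp : ∀ j, j₀ < j → j ≤ j₁ → ∀ Λ : Submodule ℂ E, Λ ≤ Λ₀ → finrank ℂ Λ = j + 1 →
      ∃ H : Fin J → Submodule ℂ E, (∀ i, H i ≤ Λ₀ ∧ finrank ℂ (H i) = j) ∧
        ∀ u, Cl u → (∀ i x, P x → Y x ∈ H i → u x = 0) → ∀ x, P x → Y x ∈ Λ → u x = 0)
    (n : ℕ) (hn : j₀ + n ≤ j₁) (Λ : Submodule ℂ E) (le : Λ ≤ Λ₀)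
    (hΛ : finrank ℂ Λ = j₀ + n + 1) :
    ∃ s : Finset S, s.card ≤ B * J ^ n ∧
      ∀ u, Cl u → (∀ x ∈ s, u x = 0) → ∀ x, P x → Y x ∈ Λ → u x = 0 := by
  classical
  induction n generalizing Λ with
  | zero => simpa using base Λ hΛ
  | succ n ih =>
    obtain ⟨H, hH, hu⟩ := stp (j₀ + (n + 1)) (by omega) hn Λ le hΛ
    choose s sc su using fun i => ih (by omega) (H i) (hH i).1 (hH i).2
    refine ⟨Finset.univ.biUnion s, ?_, fun u cu hz => hu u cu fun i =>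
      su i u cu fun x hx => hz x (Finset.mem_biUnion.2 ⟨i, Finset.mem_univ _, hx⟩)⟩
    refine (Finset.card_biUnion_le_card_mul _ _ _ fun i _ => sc i).trans (le_of_eq ?_)
    rw [Finset.card_univ, Fintype.card_fin]
    ring

/-- a finite uniqueness set over an affine subspace of dimension `n` -/
theorem points_rel (h : Tame D d A C ψ σ) {Λ₀ : Submodule ℂ (ℂ × (ι → ℂ))} {n : ℕ}
    (hΛ : finrank ℂ Λ₀ = n + 1) {ρ : ℕ} {c : S → ℝ} (hc : WtR D Λ₀ ρ c) {T : ℕ} (hT : T ≠ 0)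
    {k κ : ℝ} (hk : 0 ≤ k) (hκ : 0 ≤ κ) {J₁ J₂ : ℕ}
    (h₁ : ((Fintype.card ι + 1) * (k + 3 * C) + 1) * A < J₁)
    (h₂ : ((Fintype.card ι + 1) * (κ + 3 * C) + 1) * A < J₂) :
    ∃ s : Finset S, s.card ≤ d * J₁ ^ (n - ρ) * J₂ ^ ρ ∧
      ∀ u : S → ℂ, D.Hol u → BdA D C ψ σ c T k u → BdB D C ψ σ κ u → (∀ x ∈ s, u x = 0) →
        ∀ x, 0 < c x → ((1 : ℂ), D.π x) ∈ Λ₀ → u x = 0 := by
  have hn : n ≤ Fintype.card ι := by
    have := Submodule.finrank_mono (le_top : Λ₀ ≤ ⊤)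
    rw [finrank_top_eq] at this
    omega
  rcases le_total ρ n with g | g
  · obtain ⟨s, sc, su⟩ := climb_rel Λ₀ (fun x => ((1 : ℂ), D.π x)) (fun x => 0 < c x)
      (fun u => D.Hol u ∧ BdA D C ψ σ c T k u ∧ BdB D C ψ σ κ u) (J := J₁) (j₀ := ρ)
      (j₁ := Fintype.card ι) (B := d * J₂ ^ ρ)
      (fun Λ hΛ => by
        obtain ⟨s, sc, su⟩ := points_plain h hκ h₂ (g.trans hn) Λ hΛ
        exact ⟨s, sc, fun u cu hz x _ hx => su u ⟨cu.1, cu.2.2⟩ hz x hx⟩)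
      (fun j h0 h1 Λ le hΛ => by
        obtain ⟨H, hH, hu⟩ := step_rel h hc hT hk h0 (J_mono h hk h1 h₁) Λ le hΛ
        exact ⟨H, hH, fun u cu => hu u cu.1 cu.2.1⟩)
      (n - ρ) (by omega) Λ₀ le_rfl (by omega)
    exact ⟨s, sc.trans (le_of_eq (by ring)), fun u h1 h2 h3 hz x hx =>
      su u ⟨h1, h2, h3⟩ hz x hx⟩
  · obtain ⟨s, sc, su⟩ := points_plain h hκ h₂ hn Λ₀ hΛ
    have J0 : 0 < J₂ := by
      have := h.A0
      have := h.C0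
      have p : (0 : ℝ) < J₂ := lt_of_le_of_lt (by positivity) h₂
      exact_mod_cast p
    refine ⟨s, sc.trans ?_, fun u h1 _ h3 hz x _ => su u ⟨h1, h3⟩ hz x⟩
    rw [Nat.sub_eq_zero_of_le g, pow_zero, mul_one]
    exact Nat.mul_le_mul_left _ (Nat.pow_le_pow_right J0 g)

/-- the relative count, for a space on which restriction to the part over `Λ₀` is injective -/
theorem count_rel (h : Tame D d A C ψ σ) {Λ₀ : Submodule ℂ (ℂ × (ι → ℂ))} {n : ℕ}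
    (hΛ : finrank ℂ Λ₀ = n + 1) {ρ : ℕ} {c : S → ℝ} (hc : WtR D Λ₀ ρ c) {T : ℕ} (hT : T ≠ 0)
    {k κ : ℝ} (hk : 0 ≤ k) (hκ : 0 ≤ κ) {J₁ J₂ : ℕ}
    (h₁ : ((Fintype.card ι + 1) * (k + 3 * C) + 1) * A < J₁)
    (h₂ : ((Fintype.card ι + 1) * (κ + 3 * C) + 1) * A < J₂)
    (V : Submodule ℂ (S → ℂ))
    (hV : ∀ u ∈ V, D.Hol u ∧ BdA D C ψ σ c T k u ∧ BdB D C ψ σ κ u)
    (inj : ∀ u ∈ V, (∀ x, 0 < c x → ((1 : ℂ), D.π x) ∈ Λ₀ → u x = 0) → u = 0) :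
    FiniteDimensional ℂ V ∧ finrank ℂ V ≤ d * J₁ ^ (n - ρ) * J₂ ^ ρ := by
  obtain ⟨s, sc, su⟩ := points_rel h hΛ hc hT hk hκ h₁ h₂
  obtain ⟨a, b⟩ := finrank_le_of_points V s fun u hu hz =>
    inj u hu (su u (hV u hu).1 (hV u hu).2.1 (hV u hu).2.2 hz)
  exact ⟨a, b.trans sc⟩

end Pool.Agent.Lib.MP_5c318e_ag.Hyp
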